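import Pool.Agent.Helper45.RT.Stmts3

/-!
Row BITS of project RTwo.
-/

set_option autoImplicit false

namespace RTwo

open Finset

namespace BITS

theorem sum_lt (m : ℕ) (f : ℕ → ℕ) (n : ℕ) (hf : ∀ j, j < n → f j < 2 ^ m) :
    ∑ j ∈ range n, f j * 2 ^ (m * j) < 2 ^ (m * n) := by
  induction n with
  | zero => simp
  | succ n ih =>
    rw [sum_range_succ]
    have h1 := ih (fun j hj => hf j (by omega))
    have h2 : f n + 1 ≤ 2 ^ m := hf n (by omega)
    have h3 : (f n + 1) * 2 ^ (m * n) ≤ 2 ^ m * 2 ^ (m * n) := Nat.mul_le_mul_right _ h2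
    have h4 : 2 ^ (m * (n + 1)) = 2 ^ m * 2 ^ (m * n) := by rw [← pow_add]; congr 1; ring
    rw [h4]
    have h5 : (f n + 1) * 2 ^ (m * n) = f n * 2 ^ (m * n) + 2 ^ (m * n) := by ring
    omega

theorem sum_bit (m : ℕ) (f : ℕ → ℕ) (n : ℕ) (hf : ∀ j, j < n → f j < 2 ^ m) (j e : ℕ)
    (hj : j < n) (he : e < m) :
    (∑ j ∈ range n, f j * 2 ^ (m * j)).testBit (m * j + e) = (f j).testBit e := by
  induction n with
  | zero => omega
  | succ n ih =>
    rw [sum_range_succ]
    have h1 := sum_lt m f n (fun j hj => hf j (by omega))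
    have h2 : ∑ j ∈ range n, f j * 2 ^ (m * j) + f n * 2 ^ (m * n) =
        2 ^ (m * n) * f n + ∑ j ∈ range n, f j * 2 ^ (m * j) := by ring
    rw [h2, Nat.testBit_two_pow_mul_add _ h1]
    by_cases hjn : j < n
    · have : m * j + e < m * n := by
        have : m * (j + 1) ≤ m * n := Nat.mul_le_mul_left _ hjn
        have h3 : m * (j + 1) = m * j + m := by ring
        omega
      rw [if_pos this]
      exact ih (fun j hj => hf j (by omega)) hjn
    · have hje : j = n := by omega
      subst hje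
      rw [if_neg (by omega)]
      congr 1
      omega

theorem code_eq (n : ℕ) (c : Col) :
    code n c = ∑ i ∈ range n, (∑ j ∈ range n, c i j * 2 ^ (2 * j)) * 2 ^ (20 * i) := by
  unfold code
  refine sum_congr rfl (fun i _ => ?_)
  rw [sum_mul]
  refine sum_congr rfl (fun j _ => ?_)
  rw [pow_add]
  ring

theorem row_lt (n : ℕ) (c : Col) (hn : n ≤ 10) (hc : ∀ i j, i < n → j < n → c i j ≤ 3)
    (i : ℕ) (hi : i < n) : ∑ j ∈ range n, c i j * 2 ^ (2 * j) < 2 ^ (2 * n) :=
  sum_lt 2 (c i) n (fun j hj => by have := hc i j hi hj; norm_num; omega)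

theorem row_lt20 (n : ℕ) (c : Col) (hn : n ≤ 10) (hc : ∀ i j, i < n → j < n → c i j ≤ 3)
    (i : ℕ) (hi : i < n) : ∑ j ∈ range n, c i j * 2 ^ (2 * j) < 2 ^ 20 :=
  lt_of_lt_of_le (row_lt n c hn hc i hi) (Nat.pow_le_pow_right (by omega) (by omega))

theorem bit_dgt (X i j e : ℕ) (he : e < 2) :
    (dgt X i j).testBit e = X.testBit (20 * i + 2 * j + e) := by
  unfold dgt
  have h4 : (4 : ℕ) = 2 ^ 2 := by norm_num
  rw [h4, Nat.testBit_mod_two_pow, Nat.testBit_div_two_pow]
  simp [he, Nat.add_comm]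

end BITS

open BITS in
theorem st_BITS : ST_BITS := by
  intro n c hn hc
  have hA : ∀ i j e, i < n → j < n → e < 2 →
      (code n c).testBit (20 * i + 2 * j + e) = (c i j).testBit e := by
    intro i j e hi hj he
    rw [code_eq, add_assoc, sum_bit 20 _ n (row_lt20 n c hn hc) i (2 * j + e) hi (by omega)]
    exact sum_bit 2 (c i) n (fun j hj => by have := hc i j hi hj; norm_num; omega) j e hj he
  refine ⟨hA, ?_, ?_, ?_, ?_⟩
  · intro i j e hi hj hjn he
    rw [code_eq, add_assoc, sum_bit 20 _ n (row_lt20 n c hn hc) i (2 * j + e) hi (by omega)]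
    exact Nat.testBit_lt_two_pow (lt_of_lt_of_le (row_lt n c hn hc i hi)
      (Nat.pow_le_pow_right (by omega) (by omega)))
  · intro t ht
    rw [code_eq]
    exact Nat.testBit_lt_two_pow (lt_of_lt_of_le (sum_lt 20 _ n (row_lt20 n c hn hc))
      (Nat.pow_le_pow_right (by omega) ht))
  · intro i j hi hj
    have h3 := hc i j hi hj
    apply Nat.eq_of_testBit_eq
    intro e
    by_cases he : e < 2
    · rw [bit_dgt _ _ _ _ he, hA i j e hi hj he]
    · have hp : (4 : ℕ) ≤ 2 ^ e := by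
        calc (4 : ℕ) = 2 ^ 2 := by norm_num
          _ ≤ 2 ^ e := Nat.pow_le_pow_right (by omega) (by omega)
      have h1 : dgt (code n c) i j < 4 := Nat.mod_lt _ (by omega)
      rw [Nat.testBit_lt_two_pow (lt_of_lt_of_le h1 hp),
        Nat.testBit_lt_two_pow (by omega : c i j < 2 ^ e)]
  · intro X i j e he
    exact bit_dgt X i j e he

end RTwo
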